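import Mathlib
import Pool.Agent.Y293.FA.Stm

/-!
# Distance sets of planar self-similar sets: a homogeneous subsystem with disjoint images
-/

set_option autoImplicit false

namespace Pool.Agent.Y768.FA

open MeasureTheory Set Filter Topology Pool.Agent.Y293.FA
open scoped ENNReal NNReal

noncomputable section

theorem dist_sm (o : Bool) (a b x y : ℂ) :
    dist (sm o a b x) (sm o a b y) = ‖a‖ * dist x y := by
  rw [dist_eq_norm, dist_eq_norm]
  cases o
  · have h : sm false a b x - sm false a b y = a * (x - y) := by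
      simp only [sm, Bool.false_eq_true, if_false]; ring
    rw [h, norm_mul]
  · have h : sm true a b x - sm true a b y = a * (starRingEnd ℂ) (x - y) := by
      simp only [sm, if_true, map_sub]; ring
    rw [h, norm_mul, Complex.norm_conj]

section words

variable {m : ℕ} (o : Fin m → Bool) (a b : Fin m → ℂ)

/-- the map of a word -/
def F (w : List (Fin m)) (z : ℂ) : ℂ := w.foldr (fun i x => sm (o i) (a i) (b i) x) z

/-- the ratio of a word -/
def P (w : List (Fin m)) : ℝ := (w.map fun i => ‖a i‖).prod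

theorem F_cons (i : Fin m) (w : List (Fin m)) (z : ℂ) :
    F o a b (i :: w) z = sm (o i) (a i) (b i) (F o a b w z) := rfl

theorem P_cons (i : Fin m) (w : List (Fin m)) : P a (i :: w) = ‖a i‖ * P a w := by
  simp [P]

theorem dist_F (w : List (Fin m)) (x y : ℂ) :
    dist (F o a b w x) (F o a b w y) = P a w * dist x y := by
  induction w with
  | nil => simp [F, P]
  | cons i w ih => rw [F_cons, F_cons, dist_sm, ih, P_cons, mul_assoc]

variable {a} in
theorem P_pos (ha : ∀ i, a i ≠ 0) (w : List (Fin m)) : 0 < P a w := by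
  induction w with
  | nil => simp [P]
  | cons i w ih => rw [P_cons]; exact mul_pos (norm_pos_iff.2 (ha i)) ih

variable {a} in
theorem P_le (ha : ∀ i, a i ≠ 0) {ρ : ℝ} (hρ : ∀ i, ‖a i‖ ≤ ρ) (w : List (Fin m)) :
    P a w ≤ ρ ^ w.length := by
  induction w with
  | nil => simp [P]
  | cons i w ih =>
    rw [P_cons, List.length_cons, pow_succ']
    exact mul_le_mul (hρ i) ih (P_pos ha w).le ((norm_nonneg _).trans (hρ i))

variable {o a b} in
theorem norm_eq_P {w : List (Fin m)} {q : Bool × ℂ} {t : ℂ}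
    (h : ∀ z, F o a b w z = sm q.1 q.2 t z) : ‖q.2‖ = P a w := by
  have h1 := dist_F o a b w 0 1
  rw [h, h, dist_sm] at h1
  simpa using h1

variable {o a b} in
theorem F_mem {E : Set ℂ} (hE : ∀ i, ∀ z ∈ E, sm (o i) (a i) (b i) z ∈ E) (w : List (Fin m))
    {z : ℂ} (hz : z ∈ E) : F o a b w z ∈ E := by
  induction w with
  | nil => exact hz
  | cons i w ih => rw [F_cons]; exact hE _ _ ih

variable {o a b} in
theorem F_cover {E : Set ℂ} (hE : ∀ x ∈ E, ∃ i, ∃ y ∈ E, sm (o i) (a i) (b i) y = x) (n : ℕ) :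
    ∀ x ∈ E, ∃ v : Fin n → Fin m, ∃ y ∈ E, F o a b (List.ofFn v) y = x := by
  induction n with
  | zero => intro x hx; exact ⟨Fin.elim0, x, hx, rfl⟩
  | succ n ih =>
    intro x hx
    obtain ⟨i, y, hy, rfl⟩ := hE x hx
    obtain ⟨v, y', hy', rfl⟩ := ih y hy
    refine ⟨Fin.cons i v, y', hy', ?_⟩
    rw [List.ofFn_succ, F_cons]
    simp

end words

/-- a maximal family of words with disjoint images -/
theorem exists_max {κ : Type} (W : Finset κ) (I : κ → Set ℂ) (hne : ∀ w, (I w).Nonempty) :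
    ∃ 𝓕 ⊆ W, (∀ w ∈ 𝓕, ∀ w' ∈ 𝓕, w ≠ w' → Disjoint (I w) (I w')) ∧
      ∀ w ∈ W, ∃ w' ∈ 𝓕, (I w ∩ I w').Nonempty := by
  classical
  let PP : Finset (Finset κ) := W.powerset.filter
    fun 𝓕 => ∀ w ∈ 𝓕, ∀ w' ∈ 𝓕, w ≠ w' → Disjoint (I w) (I w')
  have hP : PP.Nonempty := ⟨∅, by simp [PP]⟩
  obtain ⟨𝓕, h𝓕, hmax⟩ := Finset.exists_max_image PP Finset.card hP
  rw [Finset.mem_filter, Finset.mem_powerset] at h𝓕
  refine ⟨𝓕, h𝓕.1, h𝓕.2, fun w hw => ?_⟩
  by_contra hcon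
  push Not at hcon
  have hwF : w ∉ 𝓕 := by
    intro h
    have := hcon w h
    rw [inter_self] at this
    exact (hne w).ne_empty this
  have h1 : insert w 𝓕 ∈ PP := by
    rw [Finset.mem_filter, Finset.mem_powerset]
    refine ⟨Finset.insert_subset hw h𝓕.1, ?_⟩
    intro u hu u' hu' huu
    rw [Finset.mem_insert] at hu hu'
    rcases hu with rfl | hu <;> rcases hu' with rfl | hu'
    · exact absurd rfl huu
    · exact disjoint_iff_inter_eq_empty.2 (hcon u' hu')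
    · exact (disjoint_iff_inter_eq_empty.2 (hcon u hu)).symm
    · exact h𝓕.2 u hu u' hu' huu
  have h2 := hmax _ h1
  rw [Finset.card_insert_of_notMem hwF] at h2
  omega

/-- the covering at the level `n` -/
theorem step (hcnt : S_CNT) {m : ℕ} {o : Fin m → Bool} {a b : Fin m → ℂ} (ha : ∀ i, a i ≠ 0)
    {ρ : ℝ} (hρ0 : 0 < ρ) (hρ : ∀ i, ‖a i‖ ≤ ρ) {E : Set ℂ} (hne : E.Nonempty) {D : ℝ}
    (hD : ∀ x ∈ E, ∀ y ∈ E, dist x y ≤ D)
    (hE : ∀ x ∈ E, ∃ i, ∃ y ∈ E, sm (o i) (a i) (b i) y = x) {s : ℝ} (hs : 1 < s) (n : ℕ)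
    (hcon : ∀ (q : Bool × ℂ) (W : Finset (Fin n → Fin m)) (t : (Fin n → Fin m) → ℂ),
      (∀ w ∈ W, ∀ z, F o a b (List.ofFn w) z = sm q.1 q.2 (t w) z) →
      (∀ w ∈ W, ∀ w' ∈ W, w ≠ w' → Disjoint (F o a b (List.ofFn w) '' E)
        (F o a b (List.ofFn w') '' E)) → W.card * ‖q.2‖ ≤ 1) :
    ∃ 𝒢 : Finset (Fin n → Fin m), (∀ x ∈ E, ∃ w ∈ 𝒢, ∃ y ∈ F o a b (List.ofFn w) '' E,
      dist x y ≤ P a (List.ofFn w) * D) ∧
      ∑ w ∈ 𝒢, P a (List.ofFn w) ^ s ≤ 2 * (n + 1) ^ (2 * m) * (ρ ^ n) ^ (s - 1) := by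
  classical
  obtain ⟨L, hL, hL2⟩ := hcnt m o a b n
  have hq : ∀ v : Fin n → Fin m, ∃ q ∈ L, ∃ t : ℂ, ∀ z,
      F o a b (List.ofFn v) z = sm q.1 q.2 t z := fun v => hL2 (List.ofFn v) (List.length_ofFn)
  choose q hqL t ht using hq
  have hmax := fun r : Bool × ℂ => exists_max (Finset.univ.filter fun v => q v = r)
    (fun v => F o a b (List.ofFn v) '' E) (fun v => hne.image _)
  choose 𝓕 h1 h2 h3 using hmax
  have hP : ∀ v, ‖(q v).2‖ = P a (List.ofFn v) := fun v => norm_eq_P (ht v)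
  have hq' : ∀ r, ∀ v ∈ 𝓕 r, q v = r := fun r v hv => (Finset.mem_filter.1 (h1 r hv)).2
  refine ⟨L.biUnion 𝓕, ?_, ?_⟩
  · intro x hx
    obtain ⟨v, y, hy, rfl⟩ := F_cover hE n x hx
    obtain ⟨w, hw, z, ⟨y1, hy1, hz1⟩, ⟨y2, hy2, hz2⟩⟩ := h3 (q v) v (by simp)
    refine ⟨w, Finset.mem_biUnion.2 ⟨q v, hqL v, hw⟩, z, ⟨y2, hy2, hz2⟩, ?_⟩
    rw [← hz1, dist_F, ← hP v, ← hP w, hq' _ _ hw]
    exact mul_le_mul_of_nonneg_left (hD _ hy _ hy1) (norm_nonneg _)
  · rw [Finset.sum_biUnion]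
    · calc ∑ r ∈ L, ∑ w ∈ 𝓕 r, P a (List.ofFn w) ^ s ≤ ∑ r ∈ L, (ρ ^ n) ^ (s - 1) := by
            refine Finset.sum_le_sum fun r _ => ?_
            rcases (𝓕 r).eq_empty_or_nonempty with he | ⟨v, hv⟩
            · rw [he, Finset.sum_empty]; positivity
            · have hr : ‖r.2‖ = P a (List.ofFn v) := by rw [← hP v, hq' r v hv]
              have hr0 : 0 < ‖r.2‖ := by rw [hr]; exact P_pos ha _
              have hr1 : ‖r.2‖ ≤ ρ ^ n := by
                rw [hr]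
                simpa using P_le ha hρ (List.ofFn v)
              have e1 : ∀ w ∈ 𝓕 r, P a (List.ofFn w) ^ s = ‖r.2‖ * ‖r.2‖ ^ (s - 1) := by
                intro w hw
                rw [← hP w, hq' r w hw]
                nth_rewrite 2 [← Real.rpow_one ‖r.2‖]
                rw [← Real.rpow_add hr0]
                congr 1
                ring
              rw [Finset.sum_congr rfl e1, Finset.sum_const, nsmul_eq_mul, ← mul_assoc]
              have e2 : ((𝓕 r).card : ℝ) * ‖r.2‖ ≤ 1 := by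
                refine hcon r (𝓕 r) t (fun w hw z => ?_) (h2 r)
                rw [ht w z, hq' r w hw]
              calc ((𝓕 r).card : ℝ) * ‖r.2‖ * ‖r.2‖ ^ (s - 1) ≤ 1 * (ρ ^ n) ^ (s - 1) := by
                    apply mul_le_mul e2 _ (by positivity) zero_le_one
                    exact Real.rpow_le_rpow hr0.le hr1 (by linarith)
                _ = _ := one_mul _
        _ = L.card * (ρ ^ n) ^ (s - 1) := by rw [Finset.sum_const, nsmul_eq_mul]
        _ ≤ 2 * (n + 1) ^ (2 * m) * (ρ ^ n) ^ (s - 1) := by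
            apply mul_le_mul_of_nonneg_right _ (by positivity)
            exact_mod_cast hL
    · intro r _ r' _ hrr
      refine Finset.disjoint_left.2 fun v hv hv' => hrr ?_
      rw [← hq' r v hv, ← hq' r' v hv']

/-- existence of a good family -/
theorem key (hcnt : S_CNT) {m : ℕ} {o : Fin m → Bool} {a b : Fin m → ℂ} (ha : ∀ i, a i ≠ 0)
    (ha1 : ∀ i, ‖a i‖ < 1) {E : Set ℂ} (hEc : IsCompact E) (hne : E.Nonempty)
    (hE : ∀ x ∈ E, ∃ i, ∃ y ∈ E, sm (o i) (a i) (b i) y = x) (hdim : 1 < dimH E) :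
    ∃ n : ℕ, 1 ≤ n ∧ ∃ (q : Bool × ℂ) (W : Finset (Fin n → Fin m)) (t : (Fin n → Fin m) → ℂ),
      (∀ w ∈ W, ∀ z, F o a b (List.ofFn w) z = sm q.1 q.2 (t w) z) ∧
      (∀ w ∈ W, ∀ w' ∈ W, w ≠ w' → Disjoint (F o a b (List.ofFn w) '' E)
        (F o a b (List.ofFn w') '' E)) ∧ 1 < W.card * ‖q.2‖ := by
  classical
  by_contra hcon
  push Not at hcon
  obtain ⟨d, hd1, hd2⟩ := ENNReal.lt_iff_exists_nnreal_btwn.1 hdim
  have hs : (1 : ℝ) < d := by exact_mod_cast hd1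
  have hinf : μH[(d : ℝ)] E = ∞ := hausdorffMeasure_of_lt_dimH hd2
  -- the ratio
  obtain ⟨ρ, hρ0, hρ1, hρ⟩ : ∃ ρ : ℝ, 0 < ρ ∧ ρ < 1 ∧ ∀ i, ‖a i‖ ≤ ρ := by
    have h1 : (Finset.univ.sup fun i => ‖a i‖₊) < 1 := by
      rw [Finset.sup_lt_iff (by simp)]
      intro i _
      exact_mod_cast ha1 i
    refine ⟨max (1 / 2) ((Finset.univ.sup fun i => ‖a i‖₊ : ℝ≥0) : ℝ), by positivity, ?_, ?_⟩
    · exact max_lt (by norm_num) (by exact_mod_cast h1)
    · intro i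
      refine le_trans ?_ (le_max_right _ _)
      have : ‖a i‖₊ ≤ Finset.univ.sup fun i => ‖a i‖₊ :=
        Finset.le_sup (f := fun i => ‖a i‖₊) (Finset.mem_univ i)
      exact_mod_cast this
  set D := Metric.diam E with hDdef
  have hD0 : 0 ≤ D := Metric.diam_nonneg
  have hD : ∀ x ∈ E, ∀ y ∈ E, dist x y ≤ D := fun x hx y hy =>
    Metric.dist_le_diam_of_mem hEc.isBounded hx hy
  have hst : ∀ n : ℕ, ∃ 𝒢 : Finset (Fin n → Fin m), 1 ≤ n →
      ((∀ x ∈ E, ∃ w ∈ 𝒢, ∃ y ∈ F o a b (List.ofFn w) '' E,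
        dist x y ≤ P a (List.ofFn w) * D) ∧
      ∑ w ∈ 𝒢, P a (List.ofFn w) ^ (d : ℝ) ≤
        2 * (n + 1) ^ (2 * m) * (ρ ^ n) ^ ((d : ℝ) - 1)) := by
    intro n
    rcases Nat.lt_or_ge n 1 with h | h
    · exact ⟨∅, fun h' => by omega⟩
    · obtain ⟨𝒢, h𝒢⟩ := step hcnt ha hρ0 hρ hne hD hE hs n
        (fun q W t h1 h2 => hcon n h q W t h1 h2)
      exact ⟨𝒢, fun _ => h𝒢⟩
  choose 𝒢 h𝒢 using hst
  let V : ∀ n : ℕ, {w // w ∈ 𝒢 n} → Set ℂ := fun n w =>
    {x | ∃ y ∈ F o a b (List.ofFn w.1) '' E, dist x y ≤ P a (List.ofFn w.1) * D}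
  have hV : ∀ n (w : {w // w ∈ 𝒢 n}),
      Metric.ediam (V n w) ≤ ENNReal.ofReal (3 * D * P a (List.ofFn w.1)) := by
    intro n w
    refine Metric.ediam_le ?_
    rintro x ⟨x', ⟨u, hu, rfl⟩, hx⟩ y ⟨y', ⟨v, hv, rfl⟩, hy⟩
    rw [edist_dist]
    apply ENNReal.ofReal_le_ofReal
    have h1 := dist_F o a b (List.ofFn w.1) u v
    have h2 : P a (List.ofFn w.1) * dist u v ≤ P a (List.ofFn w.1) * D :=
      mul_le_mul_of_nonneg_left (hD _ hu _ hv) (P_pos ha _).le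
    have h4 := dist_triangle x (F o a b (List.ofFn w.1) u) y
    have h5 := dist_triangle (F o a b (List.ofFn w.1) u) (F o a b (List.ofFn w.1) v) y
    have h6 := dist_comm (F o a b (List.ofFn w.1) v) y
    linarith
  have hPn : ∀ n (w : Fin n → Fin m), P a (List.ofFn w) ≤ ρ ^ n := by
    intro n w
    simpa using P_le ha hρ (List.ofFn w)
  have htend : Tendsto (fun n : ℕ => ENNReal.ofReal (3 * D * ρ ^ n)) atTop (𝓝 0) := by
    have h1 : Tendsto (fun n : ℕ => 3 * D * ρ ^ n) atTop (𝓝 (3 * D * 0)) :=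
      (tendsto_pow_atTop_nhds_zero_of_lt_one hρ0.le hρ1).const_mul _
    rw [mul_zero] at h1
    have := ENNReal.tendsto_ofReal h1
    rwa [ENNReal.ofReal_zero] at this
  have hle := Measure.hausdorffMeasure_le_liminf_sum (d : ℝ) E
    (fun n : ℕ => ENNReal.ofReal (3 * D * ρ ^ n)) htend V
    (Eventually.of_forall fun n w => (hV n w).trans (ENNReal.ofReal_le_ofReal
      (mul_le_mul_of_nonneg_left (hPn n w.1) (by positivity))))
    (by
      filter_upwards [eventually_ge_atTop 1] with n hn x hx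
      obtain ⟨w, hw, y, hy, hxy⟩ := (h𝒢 n hn).1 x hx
      exact mem_iUnion.2 ⟨⟨w, hw⟩, y, hy, hxy⟩)
  -- the upper bound
  have hub : ∀ᶠ n : ℕ in atTop, ∑ w : {w // w ∈ 𝒢 n}, Metric.ediam (V n w) ^ (d : ℝ) ≤
      ENNReal.ofReal ((3 * D) ^ (d : ℝ) *
        (2 * ((n : ℝ) + 1) ^ (2 * m) * (ρ ^ n) ^ ((d : ℝ) - 1))) := by
    filter_upwards [eventually_ge_atTop 1] with n hn
    calc ∑ w : {w // w ∈ 𝒢 n}, Metric.ediam (V n w) ^ (d : ℝ) ≤
          ∑ w : {w // w ∈ 𝒢 n},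
            ENNReal.ofReal ((3 * D) ^ (d : ℝ) * P a (List.ofFn w.1) ^ (d : ℝ)) := by
          refine Finset.sum_le_sum fun w _ => ?_
          have hp := (P_pos ha (List.ofFn w.1)).le
          rw [← Real.mul_rpow (by positivity) hp,
            ← ENNReal.ofReal_rpow_of_nonneg (mul_nonneg (by positivity) hp) (by positivity)]
          exact ENNReal.rpow_le_rpow (hV n w) (by positivity)
      _ = ENNReal.ofReal (∑ w : {w // w ∈ 𝒢 n},
            (3 * D) ^ (d : ℝ) * P a (List.ofFn w.1) ^ (d : ℝ)) := by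
          rw [ENNReal.ofReal_sum_of_nonneg]
          intro w _
          have hp := (P_pos ha (List.ofFn w.1)).le
          positivity
      _ ≤ _ := by
          apply ENNReal.ofReal_le_ofReal
          rw [← Finset.mul_sum]
          apply mul_le_mul_of_nonneg_left _ (by positivity)
          have := (h𝒢 n hn).2
          rwa [← Finset.sum_coe_sort] at this
  have hlim : Tendsto (fun n : ℕ => ENNReal.ofReal ((3 * D) ^ (d : ℝ) *
      (2 * ((n : ℝ) + 1) ^ (2 * m) * (ρ ^ n) ^ ((d : ℝ) - 1)))) atTop (𝓝 0) := by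
    set r : ℝ := ρ ^ ((d : ℝ) - 1) with hr
    have hr0 : 0 < r := by positivity
    have hr1 : r < 1 := Real.rpow_lt_one hρ0.le hρ1 (by linarith)
    have e1 : ∀ n : ℕ, (ρ ^ n) ^ ((d : ℝ) - 1) = r ^ n := by
      intro n
      rw [hr, ← Real.rpow_natCast, ← Real.rpow_mul hρ0.le, mul_comm, Real.rpow_mul hρ0.le,
        Real.rpow_natCast]
    have h1 := (tendsto_pow_const_mul_const_pow_of_abs_lt_one (2 * m)
      (r := r) (by rwa [abs_of_pos hr0])).comp (tendsto_add_atTop_nat 1)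
    have h2 : Tendsto (fun n : ℕ => (3 * D) ^ (d : ℝ) * 2 * r⁻¹ *
        ((((n + 1 : ℕ) : ℝ)) ^ (2 * m) * r ^ (n + 1))) atTop (𝓝 ((3 * D) ^ (d : ℝ) * 2 * r⁻¹ * 0)) :=
      h1.const_mul _
    rw [mul_zero] at h2
    have h3 := ENNReal.tendsto_ofReal h2
    rw [ENNReal.ofReal_zero] at h3
    refine h3.congr fun n => ?_
    congr 1
    rw [e1]
    push_cast
    field_simp
    ring
  have hfin : liminf (fun n : ℕ => ∑ w : {w // w ∈ 𝒢 n}, Metric.ediam (V n w) ^ (d : ℝ)) atTop ≤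
      0 := by
    rw [← hlim.liminf_eq]
    exact liminf_le_liminf hub
  rw [hinf] at hle
  have := hle.trans hfin
  simp at this

/-- the conclusion from a finite family of maps -/
theorem concl {κ : Type} [Fintype κ] (c : ℂ) (T : κ → ℂ) {E : Set ℂ} (hc : c ≠ 0) (hc1 : ‖c‖ < 1)
    (hN : 1 < Fintype.card κ * ‖c‖) (hm : ∀ i, ∀ z ∈ E, c * z + T i ∈ E)
    (hd : ∀ i j, i ≠ j → ∀ x ∈ E, ∀ y ∈ E, c * x + T i ≠ c * y + T j) :
    ∃ (c : ℂ) (N : ℕ) (T : Fin N → ℂ), c ≠ 0 ∧ ‖c‖ < 1 ∧ 1 < N * ‖c‖ ∧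
    (∀ i, ∀ z ∈ E, c * z + T i ∈ E) ∧
    (∀ i j, i ≠ j → ∀ x ∈ E, ∀ y ∈ E, c * x + T i ≠ c * y + T j) := by
  refine ⟨c, Fintype.card κ, T ∘ (Fintype.equivFin κ).symm, hc, hc1, hN, fun i => hm _,
    fun i j hij => hd _ _ ?_⟩
  exact fun h => hij ((Fintype.equivFin κ).symm.injective h)

theorem sub : S_CNT → S_SUB := by
  intro hcnt m o a b ha ha1 E hEc hEeq hdim
  have hmap : ∀ i, ∀ z ∈ E, sm (o i) (a i) (b i) z ∈ E := by
    intro i z hz
    rw [hEeq]
    exact mem_iUnion.2 ⟨i, z, hz, rfl⟩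
  have hcov : ∀ x ∈ E, ∃ i, ∃ y ∈ E, sm (o i) (a i) (b i) y = x := by
    intro x hx
    rw [hEeq] at hx
    obtain ⟨i, y, hy, h⟩ := mem_iUnion.1 hx
    exact ⟨i, y, hy, h⟩
  have hne : E.Nonempty := by
    rw [nonempty_iff_ne_empty]
    rintro rfl
    rw [dimH_empty] at hdim
    simp at hdim
  obtain ⟨n, hn, q, W, t, h1, h2, h3⟩ := key hcnt ha ha1 hEc hne hcov hdim
  have hW : W.Nonempty := by
    rw [Finset.nonempty_iff_ne_empty]
    rintro rfl
    simp at h3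
    linarith
  obtain ⟨w0, hw0⟩ := hW
  have hq : ‖q.2‖ = P a (List.ofFn w0) := norm_eq_P (h1 w0 hw0)
  have hq0 : 0 < ‖q.2‖ := by rw [hq]; exact P_pos ha _
  have hq1 : ‖q.2‖ < 1 := by
    rw [hq]
    obtain ⟨k, rfl⟩ : ∃ k, n = k + 1 := ⟨n - 1, by omega⟩
    rw [List.ofFn_succ, P_cons]
    have h4 : P a (List.ofFn fun i => w0 i.succ) ≤ 1 ^ (List.ofFn fun i => w0 i.succ).length :=
      P_le ha (fun i => (ha1 i).le) _
    rw [one_pow] at h4
    calc ‖a (w0 0)‖ * P a (List.ofFn fun i => w0 i.succ) ≤ ‖a (w0 0)‖ * 1 :=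
          mul_le_mul_of_nonneg_left h4 (norm_nonneg _)
      _ < 1 := by rw [mul_one]; exact ha1 _
  have hinj : ∀ w ∈ W, ∀ x y, F o a b (List.ofFn w) x = F o a b (List.ofFn w) y → x = y := by
    intro w hw x y hxy
    have := dist_F o a b (List.ofFn w) x y
    rw [hxy, dist_self] at this
    rcases mul_eq_zero.1 this.symm with h | h
    · exact absurd h (P_pos ha _).ne'
    · exact dist_eq_zero.1 h
  obtain ⟨o', c⟩ := q
  cases o' with
  | false =>
    have e1 : ∀ w ∈ W, ∀ z, F o a b (List.ofFn w) z = c * z + t w := by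
      intro w hw z
      rw [h1 w hw z]
      simp [sm]
    refine concl (κ := {w // w ∈ W}) c (fun w => t w.1) (norm_pos_iff.1 hq0) hq1 ?_ ?_ ?_
    · simpa using h3
    · intro w z hz
      rw [← e1 w.1 w.2]
      exact F_mem hmap _ hz
    · intro w w' hww x hx y hy
      rw [← e1 w.1 w.2, ← e1 w'.1 w'.2]
      exact (h2 w.1 w.2 w'.1 w'.2 (fun h => hww (Subtype.ext h))).ne_of_mem ⟨x, hx, rfl⟩
        ⟨y, hy, rfl⟩
  | true =>
    have e1 : ∀ w ∈ W, ∀ z, F o a b (List.ofFn w) z = c * (starRingEnd ℂ) z + t w := by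
      intro w hw z
      rw [h1 w hw z]
      simp [sm]
    have e2 : ∀ w ∈ W, ∀ v ∈ W, ∀ z, F o a b (List.ofFn w) (F o a b (List.ofFn v) z) =
        (c * (starRingEnd ℂ) c) * z + (c * (starRingEnd ℂ) (t v) + t w) := by
      intro w hw v hv z
      rw [e1 w hw, e1 v hv]
      simp only [map_add, map_mul, Complex.conj_conj]
      ring
    have hnc : ‖c * (starRingEnd ℂ) c‖ = ‖c‖ * ‖c‖ := by
      rw [norm_mul, Complex.norm_conj]
    refine concl (κ := {w // w ∈ W} × {w // w ∈ W}) (c * (starRingEnd ℂ) c)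
      (fun p => c * (starRingEnd ℂ) (t p.2.1) + t p.1.1) ?_ ?_ ?_ ?_ ?_
    · rw [← norm_pos_iff, hnc]
      exact mul_pos hq0 hq0
    · rw [hnc]
      simp only at hq1 hq0
      nlinarith
    · rw [hnc]
      simp only [Fintype.card_prod, Fintype.card_coe, Nat.cast_mul]
      have e3 : (W.card : ℝ) * W.card * (‖c‖ * ‖c‖) = (W.card * ‖c‖) * (W.card * ‖c‖) := by ring
      rw [e3]
      simp only at h3
      nlinarith
    · rintro ⟨w, v⟩ z hz
      rw [← e2 w.1 w.2 v.1 v.2]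
      exact F_mem hmap _ (F_mem hmap _ hz)
    · rintro ⟨w, v⟩ ⟨w', v'⟩ hww x hx y hy
      rw [← e2 w.1 w.2 v.1 v.2, ← e2 w'.1 w'.2 v'.1 v'.2]
      by_cases hw : w = w'
      · subst hw
        have hv : v.1 ≠ v'.1 := fun h => hww (by rw [Subtype.ext h])
        intro heq
        exact (h2 v.1 v.2 v'.1 v'.2 hv).ne_of_mem ⟨x, hx, rfl⟩ ⟨y, hy, rfl⟩
          (hinj w.1 w.2 _ _ heq)
      · exact (h2 w.1 w.2 w'.1 w'.2 (fun h => hw (Subtype.ext h))).ne_of_mem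
          ⟨_, F_mem hmap _ hx, rfl⟩ ⟨_, F_mem hmap _ hy, rfl⟩

end

end Pool.Agent.Y768.FA
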